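import Pool.Agent.V11227.JonesGn6

/-!
# Random elements of groups of braids with almost arbitrary linking numbers and Vassiliev invariants

Diagrams (starting library `Pool.Agent.H891R2.Jones.Diagram`): `Diagram P` (oriented link diagrams with
marked points `P`, planar or not),
`Diagram.IsClosed`, `Outer m` (the part of an oriented diagram outside a box through which `m` strands
run, with arbitrary directions `O.up`), `Outer.close` (fills the box with vertical strands).  Starting
library `Pool.Agent.W639.RB.Defs`: `Letter m` (the letters `σ_i^{±1}` of the braid group on `m` strands).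

Definitions of the starting library (`Pool.Agent.Y463.SK.Defs`, `Pool.Agent.Y463.RW.Defs`) for words
(lists of letters): `permW w` (the permutation of the strands), `powW w n` (the power `w^n`, `n ∈ ℤ`),
`IsPure w` (`permW w = 1`), `dia O w` (the diagram obtained by drawing `w` in the box of `O` and filling
the rest of the box with vertical strands), `prodW w u` (the product `w_{i_1}^{±1} ⋯ w_{i_n}^{±1}` given
by the sequence `u` of `n` pairs `(i, ±)`).

Definitions of `Pool.Agent.V11227`: `JL.cr w a b` (`JonesLk2`): the number of the letters `σ_i` minus the
number of the letters `σ_i⁻¹` of `w` at which the strands cross that start at the places `a` and `b`;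
`GN.Pr m` (`JonesGn3`): the pairs `a < b` of strands; `GN.IsLk w l` (`JonesGn5`): `cr w a b = 2 l_{ab}`
for all `a < b`, that is, if `w` is pure and all strands run upwards, `l` is the matrix of the linking
numbers of the strands of `w`.

Vassiliev invariants (starting library `Pool.Agent.H832R3.VJ.Defs`): `Dia` (an oriented diagram with
the finite set of its marked points), `Separated d X Y` (some integer valued Vassiliev invariant of
oriented links of order at most `d` has different values on `X` and `Y`), `unknot`; `size X`
(`Pool.Agent.W705.JR.Vas`): the number of the crossings plus twice the number of the marked points.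
`JL.vdia O w` (`JonesLk10`): the diagram `dia O w` as an element of `Dia`; `JL.osize O` (`JonesLk10`): the
number of the crossings of the outside `O` plus twice the number of its marked points.
-/

set_option autoImplicit false

namespace Pool.Agent.Results.MP_5f6b43_gt.GenericLinkingSubgroups

open Finset Pool.Agent.H891R2.Jones Pool.Agent.W639.RB Pool.Agent.Y463.SK Pool.Agent.Y463.RW
  Pool.Agent.W705.JR Pool.Agent.H832R3.VJ Pool.Agent.V11227.JL Pool.Agent.V11227.GN

open Classical in
/-- **Random elements of groups of braids and Vassiliev invariants.**  Let `m ≥ 3`.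

(1) There is a set `B` of integral matrices `(l_{ab})`, `a < b`, which contains at most
`2^m m! (2N+1)^(C(m,2)-1)` of the `(2N+1)^C(m,2)` matrices with entries in `[-N, N]`, for every `N`, and
has the following property (2).  Every matrix is the linking matrix of a pure braid word, and every pure
braid word has a linking matrix.

(2) For every `s ≥ 1` there is a constant `C` with the following property.  Let `O` be the part of an
oriented link diagram outside a box through which `m` strands run, with arbitrary directions, with `c`
crossings and `p` marked points, and let `w_1, …, w_s` be braid words on `m` strands, of length at most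
`L`, such that for some product `g` of the words `w_i^{±1}` and some `r ≥ 0` the word `g^r` is pure and
its linking matrix is not in `B`.  Then for every braid word `v`, every oriented link diagram `X` (for
instance `unknot`, of size `2`) and all `n ≥ 1`, all but at most `C n^{-e} (2 s)^n` of the `(2 s)^n`
products `u = w_{i_1}^{±1} ⋯ w_{i_n}^{±1}` give a diagram, with the braid `u v` in the box, which is
separated from `X` by an integer valued Vassiliev invariant of order at most
`2 (c + 2 p + (2m+1)(n L + |v|) + size X) + 1`, where `e = 1 / (3 · 2^(m! 2^m + 2))`.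

(3) If `O`, with vertical strands in the box, is a diagram of a link and the permutation of a word `x`
preserves the directions of the strands, then `dia O x` is a diagram of a link. -/
theorem result (m : ℕ) (hm : 3 ≤ m) : ∃ B : Set (Pr m → ℤ),
    (∀ N : ℕ, {l : Pr m → ℤ | l ∈ B ∧ ∀ p, |l p| ≤ N}.Finite ∧
      {l : Pr m → ℤ | l ∈ B ∧ ∀ p, |l p| ≤ N}.ncard ≤
        2 ^ m * m.factorial * (2 * N + 1) ^ (m.choose 2 - 1)) ∧
    Fintype.card (Pr m) = m.choose 2 ∧
    (∀ l : Pr m → ℤ, ∃ w : List (Letter m), IsPure w ∧ IsLk w l) ∧
    (∀ w : List (Letter m), IsPure w → ∃ l : Pr m → ℤ, IsLk w l) ∧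
    size unknot = 2 ∧
    (∀ s : ℕ, 0 < s → ∃ C : ℝ, 0 < C ∧ ∀ (O : Outer m) (w : Fin s → List (Letter m)),
      (∃ (k : ℕ) (a : Fin k → Fin s × Bool) (r : ℕ), IsPure (powW (prodW w a) r) ∧
        ∃ l, l ∉ B ∧ IsLk (powW (prodW w a) r) l) →
      ∀ (v : List (Letter m)) (L : ℕ), (∀ i, (w i).length ≤ L) → ∀ (X : Dia) (n : ℕ), 0 < n →
        ((univ.filter (fun u : Fin n → Fin s × Bool =>
          ¬ Separated (2 * (osize O + (2 * m + 1) * (n * L + v.length) + size X) + 1)
            (vdia O (prodW w u ++ v)) X)).card : ℝ) ≤
            C * (n : ℝ) ^ (-(1 / (3 * 2 ^ (m.factorial * 2 ^ m + 2))) : ℝ) * (2 * s : ℝ) ^ n) ∧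
    ∀ O : Outer m, O.close.IsClosed → ∀ x : List (Letter m), (∀ j, O.up (permW x j) = O.up j) →
      (Pool.Agent.Y463.SK.dia O x).IsClosed := by
  refine ⟨Bad m, bad_count_all m, card_pr, fun l => exists_matrix l, fun w hw => exists_lk w hw, ?_,
    fun s hs => ⟨m.factorial * Cst (2 * s : ℝ) (dimB m + 1), mul_pos (by positivity)
    (lt_of_lt_of_le one_pos (Cst_ge _ _)), fun O w h v L hL X n hn => ?_⟩,
    fun O hO x hx => dia_closed O hO x hx⟩
  · unfold size unknot
    simp
  · obtain ⟨k, a, r, hr, l, hb, hl⟩ := h
    exact vna_random (by omega) hs O w k a r hr (noAll_good hm O _ hr l hl hb) v L hL X n hn _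
      (Nat.lt_succ_self _)

end Pool.Agent.Results.MP_5f6b43_gt.GenericLinkingSubgroups
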