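import Pool.Agent.V11227.JonesLk11

/-!
# Powers of linked braids and Vassiliev invariants of linear order

Diagrams (starting library `Pool.Agent.H891R2.Jones.Diagram`): `Diagram P` (oriented link diagrams with
marked points `P`, planar or not), `Diagram.writhe`, `Diagram.IsClosed`, `Outer m` (the part of an
oriented diagram outside a box through which `m` strands run, with arbitrary directions `O.up`),
`Outer.close` (fills the box with vertical strands).  Starting library `Pool.Agent.W639.RB.Defs`:
`Letter m` (the letters `σ_i^{±1}` of the braid group on `m` strands).

Definitions of the starting library (`Pool.Agent.Y463.SK.Defs`, `Pool.Agent.Y463.RW.Defs`) for words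
(lists of letters): `permW w` (the permutation of the strands), `powW w n` (the power `w^n`, `n ∈ ℤ`),
`IsPure w` (`permW w = 1`), `dia O w` (the diagram obtained by drawing `w` in the box of `O` and filling
the rest of the box with vertical strands), `prodW w u` (the product `w_{i_1}^{±1} ⋯ w_{i_n}^{±1}` given
by the sequence `u` of `n` pairs `(i, ±)`).

Vassiliev invariants (starting library `Pool.Agent.H832R3.VJ.Defs`): `Dia` (an oriented diagram with
the finite set of its marked points), `Separated d X Y` (some integer valued Vassiliev invariant of
oriented links of order at most `d` has different values on `X` and `Y`), `unknot`; `size X`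
(`Pool.Agent.W705.JR.Vas`): the number of the crossings plus twice the number of the marked points.

Definitions of `Pool.Agent.V11227`: `JL.cr w a b` (`JonesLk2`): the number of the letters `σ_i` minus the
number of the letters `σ_i⁻¹` of `w` at which the strands cross that start at the places `a` and `b`;
for a pure word this is twice the linking number of these strands if they have the same direction, and
minus twice the linking number otherwise.  `JL.LinkedAt O u w` (`JonesLk8`):
`∑_{a,b} |cr w a b| < |∑_{a,b} c_{a,b} cr w a b|`, where `c_{a,b} = 2` if the strands `a` and `b` (of the
box, after the braid `u`) have the same direction and `c_{a,b} = -1` otherwise; `JL.Linked O w`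
(`JonesLk7`): the same condition for the empty word `u`.  `JP.positive w`, `JP.negative w`
(`JonesPos3`): the numbers of the letters `σ_i` and `σ_i⁻¹` of `w`.  `JP.Mostly O u w r`
(`JonesPos3`): three times the contribution `c` of `w^r` to the writhe of the diagram `dia O (u w^r)` is
larger than `r (positive w + 3 negative w)`, or `-3 c` is larger than `r (negative w + 3 positive w)`.  `JL.vdia O w`
(`JonesLk10`): the diagram `dia O w` as an element of `Dia`; `JL.osize O` (`JonesLk10`): the number of the
crossings of the outside `O` plus twice the number of its marked points.
-/

set_option autoImplicit false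

namespace Pool.Agent.Results.MP_5f6b43_gt.LinkedPowers

open Finset Pool.Agent.H891R2.Jones Pool.Agent.W639.RB Pool.Agent.Y463.SK Pool.Agent.W705.JR
  Pool.Agent.H832R3.VJ Pool.Agent.V11227.JP Pool.Agent.V11227.JL

open Classical in
/-- **Powers of linked braids.**  Let `O` be the part of an oriented link diagram outside a box through
which `m ≥ 1` strands run, with arbitrary directions, let `u, w, v` be braid words on `m` strands and
`r ≥ 1` such that `w^r` is pure and satisfies the linking condition `LinkedAt O u (w^r)`.  Let `D(n)`,
`n ∈ ℤ`, be the diagram with the braid `u w^n v` in the box.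

For every oriented link diagram `X`, for instance the diagram `unknot` (of size `2`), for all but at most
`r m!` integers `n` the diagram `D(n)` is separated from `X` by an integer valued Vassiliev invariant of
order at most `2 (c + 2 p + (2m+1)(|u| + |n| |w| + |v|) + size X) + 1`, where `c` is the number of the
crossings and `p` the number of the marked points of `O`.  In particular, at most `r m!` of the `D(n)` are
not separated from the unknot by Vassiliev invariants (that is, have the Kontsevich invariant of the
unknot, if they are knots).

The linking condition holds if all the linking numbers `± cr w a b` (the sign is `+` for strands with the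
same direction, `-` otherwise) have the same sign `ε` or are zero and two strands with the same direction
have a nonzero linking number; for `w^r` if `r > 0`, all strands run upwards and `w` has more than three
times as many positive as negative letters or the other way round; and if `Mostly O u w r` holds.

If all strands run upwards and the diagram `O`, with vertical strands in the box, is a diagram of a
link, then so are all the diagrams `dia O x`. -/
theorem result (m : ℕ) (hm : 0 < m) (O : Outer m) :
    (∀ (u w v : List (Letter m)) (r : ℕ), 0 < r → IsPure (powW w r) → LinkedAt O u (powW w r) →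
      (∀ X : Dia,
        {n : ℤ | ¬ Separated (2 * (osize O + (2 * m + 1) * (u.length + n.natAbs * w.length + v.length) +
          size X) + 1) (vdia O (u ++ (powW w n ++ v))) X}.Finite ∧
        {n : ℤ | ¬ Separated (2 * (osize O + (2 * m + 1) * (u.length + n.natAbs * w.length + v.length) +
          size X) + 1) (vdia O (u ++ (powW w n ++ v))) X}.ncard ≤ r * m.factorial) ∧
      {n : ℤ | ∀ d : ℕ, ¬ Separated d (vdia O (u ++ (powW w n ++ v))) unknot}.ncard ≤
        r * m.factorial) ∧
    size unknot = 2 ∧
    ((∀ (u w : List (Letter m)) (ε : ℤ), ε = 1 ∨ ε = -1 →
        (∀ a b, 0 ≤ ε * ((if O.up (permW u a) = O.up (permW u b) then 1 else -1) * cr w a b)) →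
        (∃ a b, O.up (permW u a) = O.up (permW u b) ∧ cr w a b ≠ 0) → LinkedAt O u w) ∧
      (∀ (u w : List (Letter m)) (r : ℕ), 0 < r → (∀ j, O.up j = true) →
        (3 * negative w < positive w ∨ 3 * positive w < negative w) → LinkedAt O u (powW w r)) ∧
      (∀ (u w : List (Letter m)) (r : ℕ), Mostly O u w r → LinkedAt O u (powW w r))) ∧
    ((∀ j, O.up j = true) → O.close.IsClosed →
      ∀ x : List (Letter m), (Pool.Agent.Y463.SK.dia O x).IsClosed) := by
  refine ⟨fun u w v r hr hp h => ⟨fun X => vas_one hm O u w v r hr hp h X, ?_⟩, ?_,
    ⟨fun u w ε hε h h' => linkedAt_of_sign O u w ε hε h h', fun u w r hr hO h =>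
      linkedAt_of_letters O (fun i j => by rw [hO i, hO j]) u w r hr h, fun u w r h =>
      linkedAt_of_mostly O u w r h⟩,
    fun hO hcl x => letters_closed O hO hcl x⟩
  · obtain ⟨h1, h2⟩ := vas_one hm O u w v r hr hp h unknot
    refine (Set.ncard_le_ncard (fun n hn => ?_) h1).trans h2
    rw [Set.mem_ofPred_eq] at hn ⊢
    exact hn _
  · unfold size unknot
    simp

end Pool.Agent.Results.MP_5f6b43_gt.LinkedPowers
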