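import Pool.Agent.V11227.JonesLk11

/-!
# Random elements of groups with a linked pure braid and Vassiliev invariants of linear order

Diagrams (starting library `Pool.Agent.H891R2.Jones.Diagram`): `Diagram P` (oriented link diagrams with
marked points `P`, planar or not), `Diagram.writhe`, `Diagram.IsClosed`, `Outer m` (the part of an
oriented diagram outside a box through which `m` strands run, with arbitrary directions `O.up`),
`Outer.close` (fills the box with vertical strands).  Starting library `Pool.Agent.W639.RB.Defs`:
`Letter m` (the letters `σ_i^{±1}` of the braid group on `m` strands).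

Definitions of the starting library (`Pool.Agent.Y463.SK.Defs`, `Pool.Agent.Y463.RW.Defs`) for words
(lists of letters): `permW w` (the permutation of the strands), `powW w n` (the power `w^n`, `n ∈ ℤ`),
`IsPure w` (`permW w = 1`), `dia O w` (the diagram obtained by drawing `w` in the box of `O` and filling
the rest of the box with vertical strands), `prodW w u` (the product `w_{i_1}^{±1} ⋯ w_{i_n}^{±1}` given
by the sequence `u` of `n` pairs `(i, ±)`).

Vassiliev invariants (starting library `Pool.Agent.H832R3.VJ.Defs`): `Dia` (an oriented diagram with
the finite set of its marked points), `Separated d X Y` (some integer valued Vassiliev invariant of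
oriented links of order at most `d` has different values on `X` and `Y`), `unknot`; `size X`
(`Pool.Agent.W705.JR.Vas`): the number of the crossings plus twice the number of the marked points.

Definitions of `Pool.Agent.V11227`: `JL.cr w a b` (`JonesLk2`): the number of the letters `σ_i` minus the
number of the letters `σ_i⁻¹` of `w` at which the strands cross that start at the places `a` and `b`;
for a pure word this is twice the linking number of these strands if they have the same direction, and
minus twice the linking number otherwise.  `JL.LinkedAt O u w` (`JonesLk8`):
`∑_{a,b} |cr w a b| < |∑_{a,b} c_{a,b} cr w a b|`, where `c_{a,b} = 2` if the strands `a` and `b` (of the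
box, after the braid `u`) have the same direction and `c_{a,b} = -1` otherwise; `JL.Linked O w`
(`JonesLk7`): the same condition for the empty word `u`.  `JP.positive w`, `JP.negative w`
(`JonesPos3`): the numbers of the letters `σ_i` and `σ_i⁻¹` of `w`.  `JP.Mostly O u w r`
(`JonesPos3`): three times the contribution `c` of `w^r` to the writhe of the diagram `dia O (u w^r)` is
larger than `r (positive w + 3 negative w)`, or `-3 c` is larger than `r (negative w + 3 positive w)`.  `JL.vdia O w`
(`JonesLk10`): the diagram `dia O w` as an element of `Dia`; `JL.osize O` (`JonesLk10`): the number of the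
crossings of the outside `O` plus twice the number of its marked points.
-/

set_option autoImplicit false

namespace Pool.Agent.Results.MP_5f6b43_gt.LinkedSubgroups

open Finset Pool.Agent.H891R2.Jones Pool.Agent.W639.RB Pool.Agent.Y463.SK Pool.Agent.Y463.RW
  Pool.Agent.W705.JR Pool.Agent.H832R3.VJ Pool.Agent.V11227.JP Pool.Agent.V11227.JL

open Classical in
/-- **Random elements of groups with a linked pure element.**  For all `m, s ≥ 1` there is a constant
`C`, depending only on `m` and `s`, with the following property.

Let `O` be any oriented link diagram with an open box through which `m` strands run, with arbitrary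
directions, with `c` crossings and `p` marked points, and let `w_1, …, w_s` be braid words on `m` strands,
of length at most `L`, such that some product `g` of the words `w_i^{±1}` has a power `g^r` which is pure
and satisfies the linking condition `Linked O (g^r)`.  Then for every braid word `v`, every oriented link
diagram `X` (for instance `unknot`, of size `2`) and all `n ≥ 1`, all but at most `C n^{-e} (2 s)^n` of the
`(2 s)^n` products `u = w_{i_1}^{±1} ⋯ w_{i_n}^{±1}` give a diagram, with the braid `u v` in the box, which
is separated from `X` by an integer valued Vassiliev invariant of order at most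
`2 (c + 2 p + (2m+1)(n L + |v|) + size X) + 1`, where `e = 1 / (3 · 2^(m! 2^m + 2))`.

The linking condition holds if all the linking numbers of the strands of the pure braid `g^r` have the
same sign or are zero and two strands with the same direction have a nonzero linking number; if all
strands run upwards and `g` has more than three times as many positive as negative letters or the other
way round, it holds for some `r` such that `g^r` is pure.  If all strands run upwards and the diagram `O`,
with vertical strands in the box, is a diagram of a link, then so are all the diagrams `dia O x`. -/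
theorem result (m s : ℕ) (hm : 0 < m) (hs : 0 < s) : (∃ C : ℝ, 0 < C ∧
    ∀ (O : Outer m) (w : Fin s → List (Letter m)),
      (∃ (l : ℕ) (a : Fin l → Fin s × Bool) (r : ℕ),
        IsPure (powW (prodW w a) r) ∧ Linked O (powW (prodW w a) r)) →
      ∀ (v : List (Letter m)) (L : ℕ), (∀ i, (w i).length ≤ L) → ∀ (X : Dia) (n : ℕ), 0 < n →
        ((univ.filter (fun u : Fin n → Fin s × Bool =>
          ¬ Separated (2 * (osize O + (2 * m + 1) * (n * L + v.length) + size X) + 1)
            (vdia O (prodW w u ++ v)) X)).card : ℝ) ≤
            C * (n : ℝ) ^ (-(1 / (3 * 2 ^ (m.factorial * 2 ^ m + 2))) : ℝ) * (2 * s : ℝ) ^ n) ∧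
    (∀ (O : Outer m) (g : List (Letter m)),
      (∀ (r : ℕ) (ε : ℤ), ε = 1 ∨ ε = -1 →
        (∀ i j, 0 ≤ ε * ((if O.up i = O.up j then 1 else -1) * cr (powW g r) i j)) →
        (∃ i j, O.up i = O.up j ∧ cr (powW g r) i j ≠ 0) → Linked O (powW g r)) ∧
      ((∀ j, O.up j = true) → (3 * negative g < positive g ∨ 3 * positive g < negative g) →
        ∃ r : ℕ, IsPure (powW g r) ∧ Linked O (powW g r)) ∧
      ((∀ j, O.up j = true) → O.close.IsClosed →
        ∀ x : List (Letter m), (Pool.Agent.Y463.SK.dia O x).IsClosed)) := by
  refine ⟨⟨m.factorial * Cst (2 * s : ℝ) (dimB m + 1), mul_pos (by positivity)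
    (lt_of_lt_of_le one_pos (Cst_ge _ _)), fun O w h v L hL X n hn => ?_⟩, fun O g =>
      ⟨fun r ε hε h1 h2 => linked_of_sign O _ ε hε h1 h2, fun hO h => ?_, fun hO hcl x =>
      letters_closed O hO hcl x⟩⟩
  · obtain ⟨l, a, r, hr, hM⟩ := h
    exact vas_random hm hs O w l a r hr hM v L hL X n hn _ (Nat.lt_succ_self _)
  · obtain ⟨r, hr0, hr⟩ := exists_pure g
    exact ⟨r, hr, linked_of_letters O (fun i j => by rw [hO i, hO j]) _ r hr0 h⟩

end Pool.Agent.Results.MP_5f6b43_gt.LinkedSubgroups
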